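import Pool.Agent.Y501.SY.StmA

/-!
# Differentiation under an invariant mean
-/

set_option autoImplicit false

open Set Filter Topology Asymptotics
open scoped ContDiff

noncomputable section

namespace Pool.Agent.Y153.SY

open Pool.Agent.Y501.SY

section mean

variable {Γ : Type}

theorem bdd_add {F G : Γ → ℝ} (hF : Bdd F) (hG : Bdd G) : Bdd fun γ => F γ + G γ := by
  obtain ⟨C, hC⟩ := hF
  obtain ⟨D, hD⟩ := hG
  exact ⟨C + D, fun γ => (abs_add_le _ _).trans (add_le_add (hC γ) (hD γ))⟩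

theorem bdd_smul (c : ℝ) {F : Γ → ℝ} (hF : Bdd F) : Bdd fun γ => c * F γ := by
  obtain ⟨C, hC⟩ := hF
  refine ⟨|c| * C, fun γ => ?_⟩
  rw [abs_mul]
  exact mul_le_mul_of_nonneg_left (hC γ) (abs_nonneg c)

theorem bdd_sub {F G : Γ → ℝ} (hF : Bdd F) (hG : Bdd G) : Bdd fun γ => F γ - G γ := by
  have h := bdd_add hF (bdd_smul (-1) hG)
  have e : (fun γ => F γ - G γ) = fun γ => F γ + (-1) * G γ := by
    funext γ
    ring
  rwa [e]

variable [Group Γ] {m : (Γ → ℝ) → ℝ}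

theorem m_sub (hm : IsMean m) {F G : Γ → ℝ} (hF : Bdd F) (hG : Bdd G) :
    m (fun γ => F γ - G γ) = m F - m G := by
  have h1 := hm.add F (fun γ => (-1) * G γ) hF (bdd_smul (-1) hG)
  rw [hm.smul (-1) G hG] at h1
  have e : (fun γ => F γ - G γ) = fun γ => F γ + (-1) * G γ := by
    funext γ
    ring
  rw [e, h1]
  ring

theorem m_abs (hm : IsMean m) {F : Γ → ℝ} {C : ℝ} (hF : ∀ γ, |F γ| ≤ C) : |m F| ≤ C := by
  have hc : m (fun _ : Γ => C) = C := by
    have h := hm.smul C (fun _ => 1) ⟨1, fun _ => by simp⟩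
    rw [hm.one] at h
    simpa using h
  have hb : Bdd F := ⟨C, hF⟩
  have hbc : Bdd (fun _ : Γ => C) := ⟨|C|, fun _ => le_rfl⟩
  rw [abs_le]
  constructor
  · have h1 := hm.nonneg (fun γ => F γ + C) (bdd_add hb hbc) (fun γ => by
      have := (abs_le.1 (hF γ)).1
      linarith)
    rw [hm.add F (fun _ => C) hb hbc, hc] at h1
    linarith
  · have h1 := hm.nonneg (fun γ => C - F γ) (bdd_sub hbc hb) (fun γ => by
      have := (abs_le.1 (hF γ)).2
      linarith)
    rw [m_sub hm hbc hb, hc] at h1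
    linarith

theorem m_sum (hm : IsMean m) {ι : Type} (s : Finset ι) (c : ι → ℝ) (G : ι → Γ → ℝ)
    (hG : ∀ i, Bdd (G i)) :
    Bdd (fun γ => ∑ i ∈ s, c i * G i γ) ∧
      m (fun γ => ∑ i ∈ s, c i * G i γ) = ∑ i ∈ s, c i * m (G i) := by
  classical
  induction s using Finset.induction_on with
  | empty =>
    simp only [Finset.sum_empty]
    refine ⟨⟨0, fun _ => by simp⟩, ?_⟩
    have h := hm.smul 0 (fun _ => 1) ⟨1, fun _ => by simp⟩
    simpa using h
  | insert a s ha ih =>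
    simp only [Finset.sum_insert ha]
    refine ⟨bdd_add (bdd_smul _ (hG a)) ih.1, ?_⟩
    rw [hm.add _ _ (bdd_smul _ (hG a)) ih.1, hm.smul _ _ (hG a), ih.2]

end mean

variable {Γ : Type} [Group Γ] {m : (Γ → ℝ) → ℝ} {d : ℕ} {U : Set (E d)} {f : Γ → E d → ℝ}

omit [Group Γ] in
theorem bdd_val (hf : UnifBdd f U) {p : E d} (hp : p ∈ U) : Bdd (fun γ => f γ p) := by
  obtain ⟨N, hN, C, hC⟩ := hf.2 0 p hp
  refine ⟨C, fun γ => ?_⟩
  have h := hC p (mem_of_mem_nhds hN) γ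
  rwa [norm_iteratedFDeriv_zero, Real.norm_eq_abs] at h

omit [Group Γ] in
theorem ub_deriv (hU : IsOpen U) (hf : UnifBdd f U) (v : E d) :
    UnifBdd (fun γ p => fderiv ℝ (f γ) p v) U := by
  have h0 : ∀ γ, ContDiffOn ℝ ∞ (fderiv ℝ (f γ)) U := fun γ =>
    (hf.1 γ).fderiv_of_isOpen hU (by simp)
  refine ⟨fun γ => (h0 γ).clm_apply contDiffOn_const, fun n p hp => ?_⟩
  obtain ⟨N, hN, C, hC⟩ := hf.2 (n + 1) p hp
  refine ⟨N ∩ U, inter_mem hN (hU.mem_nhds hp), ‖v‖ * C, fun q hq γ => ?_⟩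
  have h1 : ContDiffAt ℝ ∞ (fderiv ℝ (f γ)) q := (h0 γ).contDiffAt (hU.mem_nhds hq.2)
  refine (norm_iteratedFDeriv_clm_apply_const h1 (n := n) (by exact_mod_cast le_top)).trans ?_
  rw [norm_iteratedFDeriv_fderiv]
  exact mul_le_mul_of_nonneg_left (hC q hq.1 γ) (norm_nonneg v)

/-- the derivative of the mean -/
def L (m : (Γ → ℝ) → ℝ) (f : Γ → E d → ℝ) (p : E d) : E d →L[ℝ] ℝ :=
  ∑ i : Fin d, m (fun γ => fderiv ℝ (f γ) p (EuclideanSpace.single i 1)) •
    (EuclideanSpace.proj i : E d →L[ℝ] ℝ)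

theorem L_apply (hm : IsMean m) (hU : IsOpen U) (hf : UnifBdd f U) {p : E d} (hp : p ∈ U)
    (v : E d) : L m f p v = m (fun γ => fderiv ℝ (f γ) p v) := by
  have h1 : ∀ γ, fderiv ℝ (f γ) p v =
      ∑ i, v i * fderiv ℝ (f γ) p (EuclideanSpace.single i 1) := by
    intro γ
    have hv : v = ∑ i, v i • (EuclideanSpace.single i (1 : ℝ) : E d) := by
      ext j
      simp [Pi.single_apply]
    conv_lhs => rw [hv, map_sum]
    simp
  simp only [h1]
  rw [(m_sum hm Finset.univ (fun i => v i)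
    (fun i γ => fderiv ℝ (f γ) p (EuclideanSpace.single i 1))
    (fun i => bdd_val (ub_deriv hU hf _) hp)).2]
  simp [L, mul_comm]

theorem hasFDeriv (hm : IsMean m) (hU : IsOpen U) (hf : UnifBdd f U) {p : E d} (hp : p ∈ U) :
    HasFDerivAt (fun q => m (fun γ => f γ q)) (L m f p) p := by
  obtain ⟨N, hN, C, hC⟩ := hf.2 2 p hp
  obtain ⟨r, hr, hrN⟩ := Metric.mem_nhds_iff.1 (inter_mem hN (hU.mem_nhds hp))
  have hC0 : 0 ≤ C := (norm_nonneg _).trans (hC p (mem_of_mem_nhds hN) 1)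
  refine HasFDerivAt.of_isLittleO ?_
  refine (IsBigO.of_bound C ?_).trans_isLittleO (isLittleO_pow_sub_sub p one_lt_two)
  filter_upwards [Metric.ball_mem_nhds p hr] with q hq
  have hqU : q ∈ U := (hrN hq).2
  have key : ∀ γ, |f γ q - f γ p - fderiv ℝ (f γ) p (q - p)| ≤ C * ‖q - p‖ ^ 2 := by
    intro γ
    have hd : ∀ z ∈ Metric.ball p r, DifferentiableAt ℝ (f γ) z := fun z hz =>
      ((hf.1 γ).contDiffAt (hU.mem_nhds (hrN hz).2)).differentiableAt (by simp)
    have hd2 : ∀ z ∈ Metric.ball p r, DifferentiableAt ℝ (fderiv ℝ (f γ)) z := fun z hz =>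
      (((hf.1 γ).fderiv_of_isOpen hU (m := ∞) (by simp)).contDiffAt
        (hU.mem_nhds (hrN hz).2)).differentiableAt (by simp)
    have hb2 : ∀ z ∈ Metric.ball p r, ‖fderiv ℝ (fderiv ℝ (f γ)) z‖ ≤ C := fun z hz => by
      have h := hC z (hrN hz).1 γ
      rwa [show (2 : ℕ) = 1 + 1 from rfl, ← norm_iteratedFDeriv_fderiv,
        norm_iteratedFDeriv_one] at h
    have hl : ∀ z ∈ Metric.ball p r, ‖fderiv ℝ (f γ) z - fderiv ℝ (f γ) p‖ ≤ C * ‖z - p‖ :=
      fun z hz => (convex_ball p r).norm_image_sub_le_of_norm_fderiv_le hd2 hb2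
        (Metric.mem_ball_self hr) hz
    have hsub : Metric.closedBall p ‖q - p‖ ⊆ Metric.ball p r :=
      Metric.closedBall_subset_ball (by simpa [dist_eq_norm] using hq)
    have h := (convex_closedBall p ‖q - p‖).norm_image_sub_le_of_norm_hasFDerivWithin_le'
      (f := f γ) (f' := fderiv ℝ (f γ)) (φ := fderiv ℝ (f γ) p) (C := C * ‖q - p‖) (x := p) (y := q)
      (fun z hz => (hd z (hsub hz)).hasFDerivAt.hasFDerivWithinAt)
      (fun z hz => (hl z (hsub hz)).trans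
        (mul_le_mul_of_nonneg_left (mem_closedBall_iff_norm.1 hz) hC0))
      (Metric.mem_closedBall_self (norm_nonneg _)) (by simp [dist_eq_norm])
    rw [Real.norm_eq_abs] at h
    refine h.trans (le_of_eq ?_)
    ring
  have hb1 : Bdd (fun γ => f γ q) := bdd_val hf hqU
  have hb2 : Bdd (fun γ => f γ p) := bdd_val hf hp
  have hb3 : Bdd (fun γ => fderiv ℝ (f γ) p (q - p)) := bdd_val (ub_deriv hU hf _) hp
  rw [L_apply hm hU hf hp, ← m_sub hm hb1 hb2, ← m_sub hm (bdd_sub hb1 hb2) hb3,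
    Real.norm_eq_abs, Real.norm_eq_abs, abs_of_nonneg (by positivity : (0 : ℝ) ≤ ‖q - p‖ ^ 2)]
  exact m_abs hm key

theorem smooth_nat (hm : IsMean m) (hU : IsOpen U) (n : ℕ) : ∀ f : Γ → E d → ℝ, UnifBdd f U →
    ContDiffOn ℝ n (fun q => m (fun γ => f γ q)) U := by
  induction n with
  | zero =>
    intro f hf
    exact contDiffOn_zero.2 fun p hp => (hasFDeriv hm hU hf hp).continuousAt.continuousWithinAt
  | succ n ih =>
    intro f hf
    rw [show ((n + 1 : ℕ) : WithTop ℕ∞) = n + 1 by push_cast; rfl,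
      contDiffOn_succ_iff_fderiv_of_isOpen hU]
    refine ⟨fun p hp => (hasFDeriv hm hU hf hp).differentiableAt.differentiableWithinAt,
      fun h => by simp at h, ?_⟩
    refine ContDiffOn.congr (f := fun p => L m f p) ?_ fun p hp => (hasFDeriv hm hU hf hp).fderiv
    unfold L
    exact ContDiffOn.sum fun i _ => (ih _ (ub_deriv hU hf _)).smul contDiffOn_const

theorem t_AVG : S_AVG := by
  intro d Γ _ m hm U f hU hf
  refine ⟨contDiffOn_infty.2 fun n => smooth_nat hm hU n f hf, fun p hp v => ?_⟩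
  rw [(hasFDeriv hm hU hf hp).fderiv, L_apply hm hU hf hp]

end Pool.Agent.Y153.SY
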